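import Pool.Agent.X171.FT.XA

/-!
# The lattice `X_A ⊗ X_B` is not projective for large `A`, `B`
-/

open Filter
open scoped Topology

namespace Pool.Agent.X171.FT

open Pool.Agent.X171.BL Pool.Agent.X171.SP

universe u v

/-! ### Continuous functions on cubes depend on countably many coordinates -/

lemma gen_dep {Γ : Type} {X : Type v} [NormedAddCommGroup X] [Lattice X] [NormedSpace ℝ X]
    {e : X} {u : Γ → X} {f : C(K Γ, ℝ)} {x : X} (h : Gen e u f x) :
    ∃ s : Set Γ, s.Countable ∧ ∀ k l : K Γ, (∀ γ ∈ s, k γ = l γ) → f k = f l := by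
  induction h with
  | one => exact ⟨∅, Set.countable_empty, fun _ _ _ => rfl⟩
  | pi γ =>
    refine ⟨{γ}, Set.countable_singleton γ, fun k l hkl => ?_⟩
    change (k γ : ℝ) = l γ
    rw [hkl γ rfl]
  | add _ _ ih1 ih2 =>
    obtain ⟨s, hs, h1⟩ := ih1
    obtain ⟨t, ht, h2⟩ := ih2
    refine ⟨s ∪ t, hs.union ht, fun k l hkl => ?_⟩
    rw [ContinuousMap.add_apply, ContinuousMap.add_apply,
      h1 k l fun γ hγ => hkl γ (Or.inl hγ), h2 k l fun γ hγ => hkl γ (Or.inr hγ)]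
  | smul r _ ih =>
    obtain ⟨s, hs, h1⟩ := ih
    refine ⟨s, hs, fun k l hkl => ?_⟩
    rw [ContinuousMap.smul_apply, ContinuousMap.smul_apply, h1 k l hkl]
  | sup _ _ ih1 ih2 =>
    obtain ⟨s, hs, h1⟩ := ih1
    obtain ⟨t, ht, h2⟩ := ih2
    refine ⟨s ∪ t, hs.union ht, fun k l hkl => ?_⟩
    rw [ContinuousMap.sup_apply, ContinuousMap.sup_apply,
      h1 k l fun γ hγ => hkl γ (Or.inl hγ), h2 k l fun γ hγ => hkl γ (Or.inr hγ)]

lemma countable_dep {Γ : Type} (f : C(K Γ, ℝ)) :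
    ∃ s : Set Γ, s.Countable ∧ ∀ k l : K Γ, (∀ γ ∈ s, k γ = l γ) → f k = f l := by
  have hf : f ∈ closure {g : C(K Γ, ℝ) | ∃ y, Gen (1 : ℝ) (fun _ => 0) g y} := by
    rw [dense_gen]; trivial
  obtain ⟨g, hg, hlim⟩ := mem_closure_iff_seq_limit.1 hf
  choose s hs h1 using fun n => gen_dep (hg n).choose_spec
  refine ⟨⋃ n, s n, Set.countable_iUnion hs, fun k l hkl => ?_⟩
  have h2 : ∀ k : K Γ, Tendsto (fun n => g n k) atTop (𝓝 (f k)) := fun k =>
    ((continuous_eval_const k).tendsto f).comp hlim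
  refine tendsto_nhds_unique (h2 k) ?_
  have h3 : (fun n => g n k) = fun n => g n l := by
    funext n
    exact h1 n k l fun γ hγ => hkl γ (Set.mem_iUnion.2 ⟨n, hγ⟩)
  rw [h3]
  exact h2 l

/-! ### Real lattice homomorphisms -/

instance : BanachLattice ℝ where
  ordered := inferInstance
  smul := inferInstance
  solid := inferInstance
  complete := inferInstance

/-- evaluation at a point -/
noncomputable def evK {Γ : Type} (k : K Γ) : C(K Γ, ℝ) →L[ℝ] ℝ :=
  LinearMap.mkContinuous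
    { toFun := fun f => f k
      map_add' := fun _ _ => rfl
      map_smul' := fun _ _ => rfl } 1 fun f => by
        rw [one_mul]
        exact f.norm_coe_le_norm k

lemma evK_apply {Γ : Type} (k : K Γ) (f : C(K Γ, ℝ)) : evK k f = f k := rfl

lemma evK_hom {Γ : Type} (k : K Γ) : IsLatticeHom (evK k) := ⟨fun _ _ => rfl, fun _ _ => rfl⟩

lemma smul_hom' {X : Type v} [NormedAddCommGroup X] [Lattice X] [NormedSpace ℝ X]
    {φ : X →L[ℝ] ℝ} (hφ : IsLatticeHom φ) {t : ℝ} (ht : 0 ≤ t) : IsLatticeHom (t • φ) := by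
  refine ⟨fun x y => ?_, fun x y => ?_⟩
  · rw [smul_apply, hφ.sup, smul_apply, smul_apply, smul_eq_mul, smul_eq_mul, smul_eq_mul]
    exact mul_max_of_nonneg _ _ ht
  · rw [smul_apply, hφ.inf, smul_apply, smul_apply, smul_eq_mul, smul_eq_mul, smul_eq_mul]
    exact mul_min_of_nonneg _ _ ht

/-- Real lattice homomorphisms on `C([0,1]^Γ)` are multiples of evaluations. -/
lemma exists_eval {Γ : Type} {L : C(K Γ, ℝ) →L[ℝ] ℝ} (hL : IsLatticeHom L) :
    ∃ p : K Γ, ∀ f, L f = L 1 * f p := by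
  have hone : (0 : C(K Γ, ℝ)) ≤ 1 := fun _ => zero_le_one
  have h1 : 0 ≤ L 1 := hL.nonneg hone
  have h0 : ∀ γ, 0 ≤ L (pr γ) := fun γ => by
    have h0 : (0 : C(K Γ, ℝ)) ≤ pr γ := fun k => (k γ).2.1
    exact hL.nonneg h0
  have h2 : ∀ γ, L (pr γ) ≤ L 1 := fun γ => by
    have h0 : (pr γ : C(K Γ, ℝ)) ≤ 1 := fun k => (k γ).2.2
    exact hL.mono h0
  refine ⟨fun γ => ⟨L (pr γ) / L 1, div_nonneg (h0 γ) h1, div_le_one_of_le₀ (h2 γ) h1⟩,
    fun f => ?_⟩
  set p : K Γ := fun γ => ⟨L (pr γ) / L 1, div_nonneg (h0 γ) h1, div_le_one_of_le₀ (h2 γ) h1⟩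
    with hp
  have h3 := hom_ext (S := L) (T := L 1 • evK p) hL (smul_hom' (evK_hom p) h1)
    (by
      rw [smul_apply, evK_apply, smul_eq_mul]
      simp)
    (fun γ => by
      rw [smul_apply, evK_apply, smul_eq_mul]
      change L (pr γ) = L 1 * (L (pr γ) / L 1)
      rcases eq_or_lt_of_le h1 with h | h
      · have h4 : L (pr γ) = 0 := le_antisymm (by rw [h]; exact h2 γ) (h0 γ)
        rw [h4]
        simp
      · field_simp) f
  rw [h3, smul_apply, evK_apply, smul_eq_mul]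

/-! ### The test homomorphism -/

section
variable {A B : Type}

/-- the pullback along the projection onto the coordinates `x`, `y` -/
noncomputable def pl (A B : Type) : C(K (A ⊕ B), ℝ) →L[ℝ] C(K ((A × B) ⊕ (A ⊕ B)), ℝ) :=
  pull (sndK (A := A × B) (B := A ⊕ B)) sndK_continuous

lemma pl_hom : IsLatticeHom (pl A B) := pull_hom _ _

lemma pl_apply (f : C(K (A ⊕ B), ℝ)) (k : K ((A × B) ⊕ (A ⊕ B))) :
    pl A B f k = f (sndK k) := rfl

/-- the homomorphism `X_A ⊗ X_B → Z` before passing to the quotient -/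
noncomputable def T₀ (A B : Type) : RF (famE A B) →L[ℝ] RF (famZ A B) :=
  (toRF (famZ A B) : C(K ((A × B) ⊕ (A ⊕ B)), ℝ) →L[ℝ] RF (famZ A B)).comp
    ((pl A B).comp ((toRF (famE A B)).symm : RF (famE A B) →L[ℝ] C(K (A ⊕ B), ℝ)))

lemma T₀_hom : IsLatticeHom (T₀ A B) :=
  (toRF_hom (famZ A B)).comp ((pl_hom).comp (toRF_symm_hom (famE A B)))

lemma gen_sub_mem (i : Option A × Option B) :
    toRF (famZ A B) (pl A B (tens (genA i.1) (genA i.2))) - toRF (famZ A B) (genZ i) ∈ JD A B := by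
  intro k hk
  change tens (genA i.1) (genA i.2) (sndK k) - genZ i k = 0
  rw [tens_apply]
  rcases i with ⟨_ | a, _ | b⟩
  · change (1 : ℝ) * 1 - 1 = 0
    norm_num
  · change (1 : ℝ) * (k (Sum.inr (Sum.inr b)) : ℝ) - k (Sum.inr (Sum.inr b)) = 0
    ring
  · change (k (Sum.inr (Sum.inl a)) : ℝ) * 1 - k (Sum.inr (Sum.inl a)) = 0
    ring
  · change (k (Sum.inr (Sum.inl a)) : ℝ) * k (Sum.inr (Sum.inr b)) - k (Sum.inl (a, b)) = 0
    rw [hk a b]
    ring

/-- the test homomorphism, on `C([0,1]^(A ⊕ B))` -/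
noncomputable def T₁ (A B : Type) : C(K (A ⊕ B), ℝ) →L[ℝ] (JD A B).Quo :=
  (JD A B).proj.comp ((toRF (famZ A B) : C(K ((A × B) ⊕ (A ⊕ B)), ℝ) →L[ℝ] RF (famZ A B)).comp
    (pl A B))

lemma T₁_hom : IsLatticeHom (T₁ A B) :=
  (JD A B).mk_hom.comp ((toRF_hom (famZ A B)).comp pl_hom)

lemma norm_T₁ (i : Option A × Option B) : ‖T₁ A B ((famE A B).p i)‖ ≤ 1 * (famE A B).w i := by
  rw [one_mul]
  have h1 : T₁ A B ((famE A B).p i) = (JD A B).proj (toRF (famZ A B) (genZ i)) :=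
    (JD A B).mk_eq_iff.2 (gen_sub_mem i)
  rw [h1]
  exact ((JD A B).norm_mk_le _).trans ((famZ A B).rho_p i)

/-- the test homomorphism is contractive -/
lemma norm_T : ‖(JD A B).proj.comp (T₀ A B)‖ ≤ 1 := by
  refine ContinuousLinearMap.opNorm_le_bound _ zero_le_one fun f => ?_
  exact bound_of_pos (famE A B) (S := T₁ A B) (fun g hg => T₁_hom.nonneg hg) zero_le_one
    norm_T₁ f

open Classical in
/-- the matrix with the entry `1` at `(a, b)` -/
noncomputable def ptD (a : A) (b : B) : K ((A × B) ⊕ (A ⊕ B))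
  | Sum.inl c => if c = (a, b) then 1 else 0
  | Sum.inr (Sum.inl a') => if a' = a then 1 else 0
  | Sum.inr (Sum.inr b') => if b' = b then 1 else 0

open Classical in
/-- the same, with the entry `0` -/
noncomputable def ptD' (a : A) (b : B) : K ((A × B) ⊕ (A ⊕ B))
  | Sum.inl _ => 0
  | Sum.inr (Sum.inl a') => if a' = a then 1 else 0
  | Sum.inr (Sum.inr b') => if b' = b then 1 else 0

lemma ptD_mem (a : A) (b : B) : ptD a b ∈ Dset A B := by
  intro a' b'
  simp only [ptD]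
  by_cases h1 : a' = a <;> by_cases h2 : b' = b <;> simp [h1, h2]

lemma pt_agree (a : A) (b : B) (s : Set ((A × B) ⊕ (A ⊕ B))) (hs : Sum.inl (a, b) ∉ s) :
    ∀ γ ∈ s, ptD a b γ = ptD' a b γ := by
  intro γ hγ
  rcases γ with c | a' | b'
  · have hc : c ≠ (a, b) := fun h => hs (h ▸ hγ)
    simp [ptD, ptD', hc]
  · rfl
  · rfl

lemma genZ_pt (a : A) (b : B) (i : Option A × Option B) :
    genZ i (ptD' a b) ≤ 1 / 3 * (wA i.1 * wA i.2) := by
  have h := genZ_le i (ptD' a b)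
  rcases i with ⟨_ | a', _ | b'⟩
  · simp only [wA]; linarith
  · simp only [wA]; linarith
  · simp only [wA]; linarith
  · change ((ptD' a b (Sum.inl (a', b')) : unitInterval) : ℝ) ≤ _
    simp [ptD', wA]

/-- **`X_A ⊗ X_B` is not projective** if `A` is uncountable and `B` is larger than `A × ℕ`. -/
theorem not_projE [Uncountable A] [Nonempty B]
    (hcard : ∀ φ : A × ℕ → B, ¬ Function.Surjective φ) :
    ¬ OnePlusProjective.{0, 0} (RF (famE A B)) := by
  intro hE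
  obtain ⟨S, hS, hS1, hS2⟩ := hE (RF (famZ A B)) (JD A B) ((JD A B).proj.comp (T₀ A B))
    ((JD A B).mk_hom.comp T₀_hom) (1 / 2) (by norm_num)
  have hSn : ‖S‖ ≤ 3 / 2 := by
    refine hS2.trans ?_
    have := norm_T (A := A) (B := B)
    linarith
  obtain ⟨S', hS'⟩ : ∃ S' : C(K (A ⊕ B), ℝ) →L[ℝ] C(K ((A × B) ⊕ (A ⊕ B)), ℝ),
      S' = (((toRF (famZ A B)).symm :
        RF (famZ A B) →L[ℝ] C(K ((A × B) ⊕ (A ⊕ B)), ℝ)).comp S).comp
        (toRF (famE A B) : C(K (A ⊕ B), ℝ) →L[ℝ] RF (famE A B)) := ⟨_, rfl⟩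
  have hS'h : IsLatticeHom S' := by
    rw [hS']
    exact ((toRF_symm_hom (famZ A B)).comp hS).comp (toRF_hom (famE A B))
  -- the values on `Dset`
  have hval : ∀ f : C(K (A ⊕ B), ℝ), ∀ k ∈ Dset A B, S' f k = f (sndK k) := by
    intro f k hk
    have h1 := hS1 (toRF (famE A B) f)
    rw [ContinuousLinearMap.comp_apply, (JD A B).mk_eq_iff] at h1
    have h2 := h1 k hk
    have h3 : S' f k - f (sndK k) = 0 := by
      rw [hS']
      exact h2
    exact sub_eq_zero.1 h3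
  -- countable dependence
  choose D hD1 hD2 using fun c : A ⊕ B => countable_dep (S' (pr c))
  obtain ⟨D1, hD11, hD12⟩ := countable_dep (S' 1)
  have hex : ∀ a : A, ∃ φ : ℕ → B, {b | Sum.inl (a, b) ∈ D (Sum.inl a)} ⊆ Set.range φ := by
    intro a
    apply Set.countable_iff_exists_subset_range.1
    exact (hD1 (Sum.inl a)).preimage (f := fun b : B => (Sum.inl (a, b) : (A × B) ⊕ (A ⊕ B)))
      (fun b b' h => by simpa using h)
  choose φ hφ using hex
  obtain ⟨b, hb⟩ : ∃ b, ∀ x : A × ℕ, φ x.1 x.2 ≠ b := by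
    have := hcard (fun x => φ x.1 x.2)
    rw [Function.Surjective] at this
    push Not at this
    exact this
  have hbD : ∀ a, (Sum.inl (a, b) : (A × B) ⊕ (A ⊕ B)) ∉ D (Sum.inl a) := by
    intro a ha
    obtain ⟨n, hn⟩ := hφ a ha
    exact hb (a, n) hn
  obtain ⟨a, ha⟩ : ∃ a : A, (Sum.inl (a, b) : (A × B) ⊕ (A ⊕ B)) ∉ D (Sum.inr b) ∪ D1 := by
    by_contra hcon
    push Not at hcon
    have h1 : ({a : A | (Sum.inl (a, b) : (A × B) ⊕ (A ⊕ B)) ∈ D (Sum.inr b) ∪ D1}).Countable :=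
      ((hD1 (Sum.inr b)).union hD11).preimage
        (f := fun a : A => (Sum.inl (a, b) : (A × B) ⊕ (A ⊕ B))) (fun a a' h => by simpa using h)
    have h2 : {a : A | (Sum.inl (a, b) : (A × B) ⊕ (A ⊕ B)) ∈ D (Sum.inr b) ∪ D1} = Set.univ :=
      Set.eq_univ_of_forall hcon
    rw [h2] at h1
    exact Set.not_countable_univ h1
  -- the values at `ptD'`
  have hk := ptD_mem a b
  have v1 : S' 1 (ptD' a b) = 1 := by
    rw [← hD12 _ _ (pt_agree a b D1 fun h => ha (Or.inr h)), hval _ _ hk]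
    rfl
  have v2 : S' (pr (Sum.inl a)) (ptD' a b) = 1 := by
    rw [← hD2 (Sum.inl a) _ _ (pt_agree a b _ (hbD a)), hval _ _ hk]
    change ((ptD a b (Sum.inr (Sum.inl a)) : unitInterval) : ℝ) = 1
    simp [ptD]
  have v3 : S' (pr (Sum.inr b)) (ptD' a b) = 1 := by
    rw [← hD2 (Sum.inr b) _ _ (pt_agree a b _ fun h => ha (Or.inl h)), hval _ _ hk]
    change ((ptD a b (Sum.inr (Sum.inr b)) : unitInterval) : ℝ) = 1
    simp [ptD]
  obtain ⟨p, hp⟩ := exists_eval ((evK_hom (ptD' a b)).comp hS'h)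
  have hp' : ∀ f, S' f (ptD' a b) = f p := fun f => by
    have h1 := hp f
    have h2 : ((evK (ptD' a b)).comp S') 1 = 1 := v1
    rw [h2, one_mul] at h1
    exact h1
  have v4 : S' (tens (pr a) (pr b)) (ptD' a b) = 1 := by
    rw [hp', tens_apply]
    rw [hp'] at v2 v3
    change (p (Sum.inl a) : ℝ) * p (Sum.inr b) = 1
    have v2' : (p (Sum.inl a) : ℝ) = 1 := v2
    have v3' : (p (Sum.inr b) : ℝ) = 1 := v3
    rw [v2', v3', one_mul]
  -- the norm
  have hn : (famZ A B).rho (S' (tens (pr a) (pr b))) < 2 := by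
    have h1 : ‖S (toRF (famE A B) (tens (pr a) (pr b)))‖ ≤ 3 / 2 * 1 := by
      refine (S.le_opNorm _).trans ?_
      gcongr
      have h2 := (famE A B).rho_p (some a, some b)
      change (famE A B).rho (tens (pr a) (pr b)) ≤ 1
      refine h2.trans ?_
      change (1 : ℝ) * 1 ≤ 1
      norm_num
    have h2 : (famZ A B).rho (S' (tens (pr a) (pr b))) =
        ‖S (toRF (famE A B) (tens (pr a) (pr b)))‖ := by
      rw [hS']
      rfl
    rw [h2]
    linarith
  obtain ⟨c, hc, hc2⟩ := (famZ A B).exists_lt hn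
  have h1 : |S' (tens (pr a) (pr b)) (ptD' a b)| ≤ (famZ A B).lc c (ptD' a b) := hc.2 (ptD' a b)
  rw [v4, abs_one, (famZ A B).lc_eq, ContinuousMap.sum_apply] at h1
  rw [(famZ A B).val_eq] at hc2
  have h2 : ∑ i ∈ c.support, (c i • (famZ A B).p i) (ptD' a b) ≤
      ∑ i ∈ c.support, 1 / 3 * (c i * (famZ A B).w i) := by
    refine Finset.sum_le_sum fun i _ => ?_
    change c i * genZ i (ptD' a b) ≤ 1 / 3 * (c i * (wA i.1 * wA i.2))
    have h3 := mul_le_mul_of_nonneg_left (genZ_pt a b i) (hc.1 i)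
    linarith
  rw [← Finset.mul_sum] at h2
  linarith

end

end Pool.Agent.X171.FT
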