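import Pool.Agent.X171.SP.Defs

/-!
# Renormings of `C([0,1]^Γ)` generated by a family of positive functions
-/

open Filter
open scoped Topology

namespace Pool.Agent.X171.FT

open Pool.Agent.X171.BL Pool.Agent.X171.SP

universe v

variable {Γ ι : Type}

/-- a family of generators `p i ≥ 0` with weights `w i`, one of which is `1` -/
structure Fam (Γ ι : Type) where
  p : ι → C(K Γ, ℝ)
  w : ι → ℝ
  p_nonneg : ∀ i, 0 ≤ p i
  norm_p : ∀ i, ‖p i‖ ≤ w i
  one : ι
  p_one : p one = 1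

namespace Fam

variable (W : Fam Γ ι)

lemma w_nonneg (i : ι) : 0 ≤ W.w i := (norm_nonneg _).trans (W.norm_p i)

/-- linear combinations of the generators -/
noncomputable def lc (a : ι →₀ ℝ) : C(K Γ, ℝ) := Finsupp.linearCombination ℝ W.p a

/-- the value of a combination -/
noncomputable def val (a : ι →₀ ℝ) : ℝ := Finsupp.linearCombination ℝ W.w a

/-- the combination `a` dominates `f` -/
def Dom (f : C(K Γ, ℝ)) (a : ι →₀ ℝ) : Prop := (∀ i, 0 ≤ a i) ∧ |f| ≤ W.lc a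

/-- the norm -/
noncomputable def rho (f : C(K Γ, ℝ)) : ℝ := sInf {r | ∃ a, W.Dom f a ∧ W.val a = r}

lemma val_eq (a : ι →₀ ℝ) : W.val a = ∑ i ∈ a.support, a i * W.w i := by
  unfold val
  rw [Finsupp.linearCombination_apply, Finsupp.sum]
  rfl

lemma lc_eq (a : ι →₀ ℝ) : W.lc a = ∑ i ∈ a.support, a i • W.p i := by
  unfold lc
  rw [Finsupp.linearCombination_apply, Finsupp.sum]

lemma val_add (a b : ι →₀ ℝ) : W.val (a + b) = W.val a + W.val b := map_add _ _ _
lemma lc_add (a b : ι →₀ ℝ) : W.lc (a + b) = W.lc a + W.lc b := map_add _ _ _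
lemma val_smul (r : ℝ) (a : ι →₀ ℝ) : W.val (r • a) = r * W.val a := map_smul _ _ _
lemma lc_smul (r : ℝ) (a : ι →₀ ℝ) : W.lc (r • a) = r • W.lc a := map_smul _ _ _
lemma val_single (i : ι) (r : ℝ) : W.val (Finsupp.single i r) = r * W.w i := by
  unfold val
  rw [Finsupp.linearCombination_single]
  rfl
lemma lc_single (i : ι) (r : ℝ) : W.lc (Finsupp.single i r) = r • W.p i := by
  unfold lc
  rw [Finsupp.linearCombination_single]

lemma val_nonneg {a : ι →₀ ℝ} (ha : ∀ i, 0 ≤ a i) : 0 ≤ W.val a := by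
  rw [val_eq]
  exact Finset.sum_nonneg fun i _ => mul_nonneg (ha i) (W.w_nonneg i)

lemma lc_nonneg {a : ι →₀ ℝ} (ha : ∀ i, 0 ≤ a i) : 0 ≤ W.lc a := by
  rw [lc_eq]
  exact Finset.sum_nonneg fun i _ => smul_nonneg (ha i) (W.p_nonneg i)

lemma rho_nonneg (f : C(K Γ, ℝ)) : 0 ≤ W.rho f := by
  apply Real.sInf_nonneg
  rintro r ⟨a, ha, rfl⟩
  exact W.val_nonneg ha.1

lemma rho_le {f : C(K Γ, ℝ)} {a : ι →₀ ℝ} (h : W.Dom f a) : W.rho f ≤ W.val a := by
  apply csInf_le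
  · refine ⟨0, ?_⟩
    rintro r ⟨b, hb, rfl⟩
    exact W.val_nonneg hb.1
  · exact ⟨a, h, rfl⟩

lemma single_nonneg {i : ι} {r : ℝ} (hr : 0 ≤ r) (j : ι) : 0 ≤ (Finsupp.single i r) j := by
  classical
  rw [Finsupp.single_apply]
  split_ifs
  · exact hr
  · exact le_rfl

lemma abs_le_norm (f : C(K Γ, ℝ)) : |f| ≤ ‖f‖ • (1 : C(K Γ, ℝ)) := by
  intro k
  have h1 := f.norm_coe_le_norm k
  have h2 : ((‖f‖ • (1 : C(K Γ, ℝ))) k : ℝ) = ‖f‖ * (1 : ℝ) := rfl
  change |f k| ≤ (‖f‖ • (1 : C(K Γ, ℝ))) k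
  rw [h2, mul_one]
  exact h1

lemma dom_norm (f : C(K Γ, ℝ)) : W.Dom f (Finsupp.single W.one ‖f‖) :=
  ⟨single_nonneg (norm_nonneg f), by rw [W.lc_single, W.p_one]; exact abs_le_norm f⟩

lemma rho_le_norm (f : C(K Γ, ℝ)) : W.rho f ≤ W.w W.one * ‖f‖ := by
  refine (W.rho_le (W.dom_norm f)).trans_eq ?_
  rw [W.val_single, mul_comm]

lemma exists_lt {f : C(K Γ, ℝ)} {r : ℝ} (h : W.rho f < r) : ∃ a, W.Dom f a ∧ W.val a < r := by
  have hne : Set.Nonempty {r | ∃ a, W.Dom f a ∧ W.val a = r} := ⟨_, _, W.dom_norm f, rfl⟩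
  obtain ⟨_, ⟨a, ha, rfl⟩, hr⟩ := exists_lt_of_csInf_lt hne h
  exact ⟨a, ha, hr⟩

lemma le_rho {f : C(K Γ, ℝ)} {t C : ℝ} (hC : 0 ≤ C) (h : ∀ a, W.Dom f a → t ≤ C * W.val a) :
    t ≤ C * W.rho f := by
  refine le_of_forall_pos_le_add fun ε hε => ?_
  obtain ⟨a, ha, hr⟩ := W.exists_lt (f := f) (r := W.rho f + ε / (C + 1)) (by
    have : 0 < ε / (C + 1) := by positivity
    linarith)
  refine (h a ha).trans ?_
  calc C * W.val a ≤ C * (W.rho f + ε / (C + 1)) := by gcongr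
    _ = C * W.rho f + ε * (C / (C + 1)) := by ring
    _ ≤ C * W.rho f + ε * 1 := by
      gcongr
      rw [div_le_one (by positivity)]
      linarith
    _ = C * W.rho f + ε := by ring

lemma rho_mono {f g : C(K Γ, ℝ)} (h : |f| ≤ |g|) : W.rho f ≤ W.rho g := by
  have := W.le_rho (f := g) (t := W.rho f) zero_le_one fun a ha => by
    rw [one_mul]
    exact W.rho_le ⟨ha.1, h.trans ha.2⟩
  rwa [one_mul] at this

lemma rho_zero : W.rho 0 = 0 := by
  apply le_antisymm _ (W.rho_nonneg 0)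
  refine (W.rho_le_norm 0).trans_eq ?_
  rw [norm_zero, mul_zero]

lemma rho_neg (f : C(K Γ, ℝ)) : W.rho (-f) = W.rho f :=
  le_antisymm (W.rho_mono (abs_neg f).le) (W.rho_mono (abs_neg f).ge)

lemma rho_add (f g : C(K Γ, ℝ)) : W.rho (f + g) ≤ W.rho f + W.rho g := by
  refine le_of_forall_pos_le_add fun ε hε => ?_
  obtain ⟨a, ha, hr⟩ := W.exists_lt (f := f) (r := W.rho f + ε / 2) (by linarith)
  obtain ⟨b, hb, hs⟩ := W.exists_lt (f := g) (r := W.rho g + ε / 2) (by linarith)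
  have h1 : W.Dom (f + g) (a + b) := by
    refine ⟨fun i => add_nonneg (ha.1 i) (hb.1 i), ?_⟩
    rw [W.lc_add]
    exact (abs_add_le f g).trans (add_le_add ha.2 hb.2)
  have h3 := W.rho_le h1
  rw [W.val_add] at h3
  linarith

lemma rho_smul_le (r : ℝ) (f : C(K Γ, ℝ)) : W.rho (r • f) ≤ |r| * W.rho f := by
  refine W.le_rho (abs_nonneg r) fun a ha => ?_
  have h1 : W.Dom (r • f) (|r| • a) := by
    refine ⟨fun i => mul_nonneg (abs_nonneg r) (ha.1 i), ?_⟩
    have h2 : |r • f| = |r| • |f| := by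
      ext k
      exact abs_mul r (f k)
    rw [h2, W.lc_smul]
    exact smul_le_smul_of_nonneg_left ha.2 (abs_nonneg r)
  refine (W.rho_le h1).trans_eq ?_
  rw [W.val_smul]

lemma norm_le_rho (f : C(K Γ, ℝ)) : ‖f‖ ≤ 1 * W.rho f := by
  refine W.le_rho zero_le_one fun a ha => ?_
  have h1 : ‖f‖ ≤ ‖W.lc a‖ := by
    apply norm_le_of_abs_le
    exact ha.2.trans (le_abs_self _)
  rw [one_mul]
  refine h1.trans ?_
  rw [W.lc_eq, W.val_eq]
  refine (norm_sum_le _ _).trans (Finset.sum_le_sum fun i _ => ?_)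
  rw [norm_smul, Real.norm_eq_abs, abs_of_nonneg (ha.1 i)]
  exact mul_le_mul_of_nonneg_left (W.norm_p i) (ha.1 i)

lemma rho_p (i : ι) : W.rho (W.p i) ≤ W.w i := by
  have h : W.Dom (W.p i) (Finsupp.single i 1) :=
    ⟨single_nonneg zero_le_one, by rw [W.lc_single, one_smul, abs_of_nonneg (W.p_nonneg i)]⟩
  have h2 := W.rho_le h
  rwa [W.val_single, one_mul] at h2

end Fam

/-- `C([0,1]^Γ)` with the norm `rho` -/
def RF (_W : Fam Γ ι) : Type := C(K Γ, ℝ)

variable (W : Fam Γ ι)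

noncomputable instance : AddCommGroup (RF W) := inferInstanceAs (AddCommGroup C(K Γ, ℝ))
noncomputable instance : Module ℝ (RF W) := inferInstanceAs (Module ℝ C(K Γ, ℝ))
noncomputable instance : Lattice (RF W) := inferInstanceAs (Lattice C(K Γ, ℝ))

noncomputable instance : NormedAddCommGroup (RF W) :=
  AddGroupNorm.toNormedAddCommGroup
    { toFun := fun f => W.rho f
      map_zero' := W.rho_zero
      add_le' := W.rho_add
      neg' := W.rho_neg
      eq_zero_of_map_eq_zero' := fun f hf => by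
        have h := W.norm_le_rho f
        have hf' : W.rho f = 0 := hf
        rw [hf', mul_zero] at h
        exact norm_le_zero_iff.1 h }

lemma RF.norm_def (f : RF W) : ‖f‖ = W.rho f := rfl

noncomputable instance : NormedSpace ℝ (RF W) where
  norm_smul_le := fun r f => W.rho_smul_le r f

/-- the identity as an isomorphism -/
noncomputable def toRF : C(K Γ, ℝ) ≃L[ℝ] RF W :=
  LinearEquiv.toContinuousLinearEquivOfBounds
    { toFun := fun f => f
      invFun := fun f => f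
      map_add' := fun _ _ => rfl
      map_smul' := fun _ _ => rfl
      left_inv := fun _ => rfl
      right_inv := fun _ => rfl } (W.w W.one) 1 (fun f => W.rho_le_norm f)
      (fun f => W.norm_le_rho f)

instance : BanachLattice (RF W) where
  ordered := inferInstanceAs (IsOrderedAddMonoid C(K Γ, ℝ))
  smul := ⟨fun _ hr _ _ h k => mul_le_mul_of_nonneg_left (h k) hr⟩
  solid := ⟨fun _ _ h => W.rho_mono h⟩
  complete := (completeSpace_congr (toRF W).isUniformEmbedding (e := (toRF W).toEquiv)).1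
    inferInstance

lemma toRF_hom : IsLatticeHom (toRF W : C(K Γ, ℝ) →L[ℝ] RF W) :=
  ⟨fun _ _ => rfl, fun _ _ => rfl⟩

lemma toRF_symm_hom : IsLatticeHom ((toRF W).symm : RF W →L[ℝ] C(K Γ, ℝ)) :=
  ⟨fun _ _ => rfl, fun _ _ => rfl⟩

/-- Bounds for positive operators. -/
lemma bound_of_pos {X : Type v} [NormedAddCommGroup X] [Lattice X] [NormedSpace ℝ X]
    [BanachLattice X] {S : C(K Γ, ℝ) →L[ℝ] X} (hS : ∀ f, 0 ≤ f → 0 ≤ S f) {C : ℝ} (hC : 0 ≤ C)
    (h : ∀ i, ‖S (W.p i)‖ ≤ C * W.w i) (f : C(K Γ, ℝ)) : ‖S f‖ ≤ C * W.rho f := by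
  refine W.le_rho hC fun a ha => ?_
  have hmono : ∀ f g, f ≤ g → S f ≤ S g := fun f g hfg => by
    have := hS (g - f) (sub_nonneg.2 hfg)
    rw [map_sub] at this
    exact sub_nonneg.1 this
  have h1 : ‖S f‖ ≤ ‖S (W.lc a)‖ := by
    apply norm_le_of_abs_le
    rw [abs_of_nonneg (hS _ (W.lc_nonneg ha.1)), abs_le']
    constructor
    · exact hmono _ _ ((le_abs_self f).trans ha.2)
    · rw [← map_neg]
      exact hmono _ _ ((neg_le_abs f).trans ha.2)
  refine h1.trans ?_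
  rw [W.lc_eq, W.val_eq, map_sum, Finset.mul_sum]
  refine (norm_sum_le _ _).trans (Finset.sum_le_sum fun i _ => ?_)
  rw [map_smul, norm_smul, Real.norm_eq_abs, abs_of_nonneg (ha.1 i)]
  calc a i * ‖S (W.p i)‖ ≤ a i * (C * W.w i) := by
        have := ha.1 i
        gcongr
        exact h i
    _ = C * (a i * W.w i) := by ring

/-- the constant function `1` is an order unit -/
lemma mem_of_one_mem (J : ClosedIdeal (RF W)) (h : (show RF W from (1 : C(K Γ, ℝ))) ∈ J)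
    (f : RF W) : f ∈ J := by
  have h1 := J.toSubmodule.smul_mem ‖(show C(K Γ, ℝ) from f)‖ h
  refine J.solid' _ _ h1 ?_
  have h2 : |(show C(K Γ, ℝ) from f)| ≤ |‖(show C(K Γ, ℝ) from f)‖ • (1 : C(K Γ, ℝ))| :=
    (Fam.abs_le_norm _).trans (le_abs_self _)
  exact h2

end Pool.Agent.X171.FT
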