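import Pool.Agent.X171.FT.NotProj

/-!
# The universal property of the Fremlin tensor product
-/

open Filter
open scoped Topology

namespace Pool.Agent.X171.FT

open Pool.Agent.X171.BL Pool.Agent.X171.SP

universe u v u₁ u₂ u₃

/-- `E`, with the bilinear map `b : X × Y → E`, is the Fremlin (projective) tensor product of the
Banach lattices `X` and `Y`: `b` is positive, and for every positive bounded bilinear map
`φ : X × Y → Z` into a Banach lattice there is a unique positive bounded linear map `T : E → Z`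
with `T (b x y) = φ x y`, and it satisfies `‖T‖ = ‖φ‖`. -/
structure IsFremlinTensor {X : Type u₁} {Y : Type u₂} {E : Type u₃}
    [NormedAddCommGroup X] [Lattice X] [NormedSpace ℝ X]
    [NormedAddCommGroup Y] [Lattice Y] [NormedSpace ℝ Y]
    [NormedAddCommGroup E] [Lattice E] [NormedSpace ℝ E] (b : X →L[ℝ] Y →L[ℝ] E) : Prop where
  pos : ∀ x y, 0 ≤ x → 0 ≤ y → 0 ≤ b x y
  universal : ∀ (Z : Type v) [NormedAddCommGroup Z] [Lattice Z] [NormedSpace ℝ Z]
    [BanachLattice Z] (φ : X →L[ℝ] Y →L[ℝ] Z), (∀ x y, 0 ≤ x → 0 ≤ y → 0 ≤ φ x y) →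
    ∃ T : E →L[ℝ] Z, (∀ u, 0 ≤ u → 0 ≤ T u) ∧ (∀ x y, T (b x y) = φ x y) ∧ ‖T‖ = ‖φ‖ ∧
      ∀ T' : E →L[ℝ] Z, (∀ u, 0 ≤ u → 0 ≤ T' u) → (∀ x y, T' (b x y) = φ x y) → T' = T

section
variable {A B : Type}

/-! ### Density -/

/-- the linear span of the elementary tensors -/
noncomputable def V (A B : Type) : Submodule ℝ C(K (A ⊕ B), ℝ) :=
  Submodule.span ℝ (Set.range fun p : C(K A, ℝ) × C(K B, ℝ) => tens p.1 p.2)

lemma tens_mem (x : C(K A, ℝ)) (y : C(K B, ℝ)) : tens x y ∈ V A B :=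
  Submodule.subset_span ⟨(x, y), rfl⟩

lemma tens_mul (x x' : C(K A, ℝ)) (y y' : C(K B, ℝ)) :
    tens x y * tens x' y' = tens (x * x') (y * y') := by
  ext k
  change x (fstK k) * y (sndK k) * (x' (fstK k) * y' (sndK k)) =
    x (fstK k) * x' (fstK k) * (y (sndK k) * y' (sndK k))
  ring

lemma V_mul {f g : C(K (A ⊕ B), ℝ)} (hf : f ∈ V A B) (hg : g ∈ V A B) : f * g ∈ V A B := by
  refine Submodule.span_induction (p := fun f _ => f * g ∈ V A B) ?_ ?_ ?_ ?_ hf
  · rintro _ ⟨p, rfl⟩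
    refine Submodule.span_induction (p := fun g _ => tens p.1 p.2 * g ∈ V A B) ?_ ?_ ?_ ?_ hg
    · rintro _ ⟨q, rfl⟩
      change tens p.1 p.2 * tens q.1 q.2 ∈ V A B
      rw [tens_mul]
      exact tens_mem _ _
    · rw [mul_zero]; exact (V A B).zero_mem
    · intro a b _ _ ha hb
      rw [mul_add]; exact (V A B).add_mem ha hb
    · intro r a _ ha
      rw [mul_smul_comm]; exact (V A B).smul_mem r ha
  · rw [zero_mul]; exact (V A B).zero_mem
  · intro a b _ _ ha hb
    rw [add_mul]; exact (V A B).add_mem ha hb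
  · intro r a _ ha
    rw [smul_mul_assoc]; exact (V A B).smul_mem r ha

lemma pr_inl (a : A) : (pr (Sum.inl a) : C(K (A ⊕ B), ℝ)) = tens (pr a) 1 := by
  ext k
  rw [tens_apply]
  change (k (Sum.inl a) : ℝ) = (k (Sum.inl a) : ℝ) * 1
  ring

lemma pr_inr (b : B) : (pr (Sum.inr b) : C(K (A ⊕ B), ℝ)) = tens 1 (pr b) := by
  ext k
  rw [tens_apply]
  change (k (Sum.inr b) : ℝ) = 1 * (k (Sum.inr b) : ℝ)
  ring

lemma V_dense : Dense (V A B : Set C(K (A ⊕ B), ℝ)) := by
  set S : Subalgebra ℝ C(K (A ⊕ B), ℝ) := Algebra.adjoin ℝ (Set.range pr) with hS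
  have h1 : S.topologicalClosure = ⊤ := by
    apply ContinuousMap.subalgebra_topologicalClosure_eq_top_of_separatesPoints
    intro k l hkl
    obtain ⟨c, hc⟩ := Function.ne_iff.1 hkl
    refine ⟨_, ⟨pr c, Algebra.subset_adjoin ⟨c, rfl⟩, rfl⟩, fun h => hc (Subtype.ext h)⟩
  have h2 : (S : Set C(K (A ⊕ B), ℝ)) ⊆ V A B := by
    intro f hf
    refine Algebra.adjoin_induction (p := fun f _ => f ∈ V A B) ?_ ?_ ?_ ?_ hf
    · rintro _ ⟨c, rfl⟩
      cases c with
      | inl a => rw [pr_inl]; exact tens_mem _ _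
      | inr b => rw [pr_inr]; exact tens_mem _ _
    · intro r
      rw [Algebra.algebraMap_eq_smul_one, ← tens_one]
      exact (V A B).smul_mem r (tens_mem _ _)
    · intro a b _ _ ha hb
      exact (V A B).add_mem ha hb
    · intro a b _ _ ha hb
      exact V_mul ha hb
  have h3 : Dense (S : Set C(K (A ⊕ B), ℝ)) := by
    intro f
    have h4 : f ∈ S.topologicalClosure := by rw [h1]; trivial
    exact h4
  exact h3.mono h2

/-! ### Positive bilinear maps -/

section
variable {Z : Type v} [NormedAddCommGroup Z] [Lattice Z] [NormedSpace ℝ Z] [BanachLattice Z]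

lemma nonneg_of_forall {z v : Z} (h : ∀ ε : ℝ, 0 < ε → -(ε • v) ≤ z) : 0 ≤ z := by
  have h1 : Tendsto (fun n : ℕ => -((1 / ((n : ℝ) + 1)) • v)) atTop (𝓝 0) := by
    have h2 := (tendsto_one_div_add_atTop_nhds_zero_nat (𝕜 := ℝ)).smul_const v
    rw [zero_smul] at h2
    simpa using h2.neg
  exact le_of_tendsto h1 (Eventually.of_forall fun n => h _ (by positivity))

variable (β : C(K A, ℝ) →ₗ[ℝ] C(K B, ℝ) →ₗ[ℝ] Z) (hβ : ∀ x y, 0 ≤ x → 0 ≤ y → 0 ≤ β x y)

include hβ in
lemma beta_mono_left {x x' : C(K A, ℝ)} {y : C(K B, ℝ)} (hx : x ≤ x') (hy : 0 ≤ y) :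
    β x y ≤ β x' y := by
  have := hβ (x' - x) y (sub_nonneg.2 hx) hy
  rw [map_sub, LinearMap.sub_apply] at this
  exact sub_nonneg.1 this

include hβ in
lemma beta_abs (x : C(K A, ℝ)) (y : C(K B, ℝ)) : |β x y| ≤ β |x| |y| := by
  have hx1 : 0 ≤ |x| - x := sub_nonneg.2 (le_abs_self x)
  have hx2 : 0 ≤ |x| + x := by
    have := neg_le_abs x
    rw [← sub_neg_eq_add]
    exact sub_nonneg.2 this
  have hy1 : 0 ≤ |y| - y := sub_nonneg.2 (le_abs_self y)
  have hy2 : 0 ≤ |y| + y := by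
    have := neg_le_abs y
    rw [← sub_neg_eq_add]
    exact sub_nonneg.2 this
  have h1 := hβ _ _ hx1 hy1
  have h2 := hβ _ _ hx2 hy2
  have h3 := hβ _ _ hx1 hy2
  have h4 := hβ _ _ hx2 hy1
  simp only [map_sub, map_add, LinearMap.sub_apply, LinearMap.add_apply] at h1 h2 h3 h4
  rw [abs_le']
  constructor
  · have h5 := add_nonneg h3 h4
    have h6 : (2 : ℝ) • (β |x| |y| - β x y) = β |x| |y| - β x |y| + (β |x| y - β x y) +
        (β |x| |y| + β x |y| - (β |x| y + β x y)) := by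
      rw [two_smul]; abel
    rw [← h6] at h5
    have h7 := smul_le_smul_of_nonneg_left h5 (show (0 : ℝ) ≤ 1 / 2 by norm_num)
    rw [smul_zero, smul_smul] at h7
    norm_num at h7
    exact h7
  · have h5 := add_nonneg h1 h2
    have h6 : (2 : ℝ) • (β |x| |y| + β x y) = β |x| |y| - β x |y| - (β |x| y - β x y) +
        (β |x| |y| + β x |y| + (β |x| y + β x y)) := by
      rw [two_smul]; abel
    rw [← h6] at h5
    have h7 := smul_le_smul_of_nonneg_left h5 (show (0 : ℝ) ≤ 1 / 2 by norm_num)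
    rw [smul_zero, smul_smul] at h7
    norm_num at h7
    rw [← sub_nonneg, sub_neg_eq_add]
    exact h7

/-- the tensor map on formal sums -/
noncomputable def eT (A B : Type) : ((C(K A, ℝ) × C(K B, ℝ)) →₀ ℝ) →ₗ[ℝ] C(K (A ⊕ B), ℝ) :=
  Finsupp.linearCombination ℝ fun p => tens p.1 p.2

/-- the map `β` on formal sums -/
noncomputable def fT : ((C(K A, ℝ) × C(K B, ℝ)) →₀ ℝ) →ₗ[ℝ] Z :=
  Finsupp.linearCombination ℝ fun p => β p.1 p.2

/-- a finite partition of unity for finitely many functions -/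
lemma exists_partition (s : Finset (C(K A, ℝ) × C(K B, ℝ))) {ε : ℝ} (hε : 0 < ε) :
    ∃ (n : ℕ) (ψ : Fin n → C(K A, ℝ)) (c : Fin n → K A), (∀ j, 0 ≤ ψ j) ∧
      ∀ p ∈ s, |p.1 - ∑ j, p.1 (c j) • ψ j| ≤ ε • (1 : C(K A, ℝ)) := by
  classical
  set U : K A → Set (K A) := fun t => ⋂ p ∈ s, {k | |p.1 k - p.1 t| < ε} with hU
  have hUo : ∀ t, IsOpen (U t) := fun t => by
    refine isOpen_biInter_finset fun p _ => ?_
    exact isOpen_lt (by fun_prop) continuous_const
  have hUc : (Set.univ : Set (K A)) ⊆ ⋃ t, U t := fun k _ => Set.mem_iUnion.2 ⟨k, by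
    simp only [hU, Set.mem_iInter]
    intro p _
    change |p.1 k - p.1 k| < ε
    rw [sub_self, abs_zero]
    exact hε⟩
  obtain ⟨T, hT⟩ := isCompact_univ.elim_finite_subcover U hUo hUc
  set c : Fin T.card → K A := fun j => (T.equivFin.symm j : K A) with hc
  have hcov : (Set.univ : Set (K A)) ⊆ ⋃ j, U (c j) := by
    intro k hk
    obtain ⟨t, ht, hkt⟩ := Set.mem_iUnion₂.1 (hT hk)
    refine Set.mem_iUnion.2 ⟨T.equivFin ⟨t, ht⟩, ?_⟩
    simp only [hc, Equiv.symm_apply_apply]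
    exact hkt
  obtain ⟨ψ, h1, h2, h3, -⟩ := exists_continuous_sum_one_of_isOpen_isCompact
    (fun j => hUo (c j)) isCompact_univ hcov
  refine ⟨T.card, ψ, c, fun j k => (h3 j k).1, fun p hp k => ?_⟩
  change |p.1 k - (∑ j, p.1 (c j) • ψ j) k| ≤ ε * 1
  have hsum : ∑ j, ψ j k = 1 := by
    have := h2 (Set.mem_univ k)
    rwa [Finset.sum_apply] at this
  have h4 : p.1 k - (∑ j, p.1 (c j) • ψ j) k = ∑ j, ψ j k * (p.1 k - p.1 (c j)) := by
    rw [ContinuousMap.sum_apply]
    simp only [mul_sub, Finset.sum_sub_distrib, ← Finset.sum_mul, hsum, one_mul]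
    congr 1
    refine Finset.sum_congr rfl fun j _ => ?_
    rw [ContinuousMap.smul_apply, smul_eq_mul, mul_comm]
  rw [h4, mul_one]
  refine (Finset.abs_sum_le_sum_abs _ _).trans ?_
  calc ∑ j, |ψ j k * (p.1 k - p.1 (c j))| ≤ ∑ j, ψ j k * ε := by
        refine Finset.sum_le_sum fun j _ => ?_
        rw [abs_mul, abs_of_nonneg (h3 j k).1]
        rcases eq_or_ne (ψ j k) 0 with h | h
        · rw [h, zero_mul, zero_mul]
        · refine mul_le_mul_of_nonneg_left ?_ (h3 j k).1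
          have h5 : k ∈ U (c j) := h1 j (subset_tsupport _ h)
          simp only [hU, Set.mem_iInter] at h5
          exact (h5 p hp).le
    _ = ε := by rw [← Finset.sum_mul, hsum, one_mul]

include hβ in
/-- positivity of the map on formal sums -/
lemma fT_nonneg {u : (C(K A, ℝ) × C(K B, ℝ)) →₀ ℝ} (hu : 0 ≤ eT A B u) : 0 ≤ fT β u := by
  have hf : fT β u = ∑ p ∈ u.support, u p • β p.1 p.2 := by
    unfold fT
    rw [Finsupp.linearCombination_apply, Finsupp.sum]
  have he : eT A B u = ∑ p ∈ u.support, u p • tens p.1 p.2 := by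
    unfold eT
    rw [Finsupp.linearCombination_apply, Finsupp.sum]
  apply nonneg_of_forall (v := ∑ p ∈ u.support, |u p| • β 1 |p.2|)
  intro ε hε
  obtain ⟨n, ψ, c, hψ, h1⟩ := exists_partition u.support hε
  have h2 : fT β u = ∑ p ∈ u.support, u p • β (p.1 - ∑ j, p.1 (c j) • ψ j) p.2 +
      ∑ j, β (ψ j) (∑ p ∈ u.support, (u p * p.1 (c j)) • p.2) := by
    have h3 : ∑ j, β (ψ j) (∑ p ∈ u.support, (u p * p.1 (c j)) • p.2) =
        ∑ p ∈ u.support, u p • β (∑ j, p.1 (c j) • ψ j) p.2 := by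
      simp only [map_sum, map_smul, LinearMap.sum_apply, LinearMap.smul_apply, Finset.smul_sum,
        smul_smul]
      rw [Finset.sum_comm]
    rw [h3, hf, ← Finset.sum_add_distrib]
    refine Finset.sum_congr rfl fun p _ => ?_
    rw [← smul_add, ← LinearMap.add_apply, ← map_add, sub_add_cancel]
  have h3 : 0 ≤ ∑ j, β (ψ j) (∑ p ∈ u.support, (u p * p.1 (c j)) • p.2) := by
    refine Finset.sum_nonneg fun j _ => hβ _ _ (hψ j) fun l => ?_
    have h4 : 0 ≤ eT A B u (pairK (c j) l) := hu (pairK (c j) l)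
    rw [he, ContinuousMap.sum_apply] at h4
    change 0 ≤ (∑ p ∈ u.support, (u p * p.1 (c j)) • p.2) l
    rw [ContinuousMap.sum_apply]
    refine h4.trans_eq (Finset.sum_congr rfl fun p _ => ?_)
    change u p * (p.1 (c j) * p.2 l) = u p * p.1 (c j) * p.2 l
    ring
  have h4 : -(ε • ∑ p ∈ u.support, |u p| • β 1 |p.2|) ≤
      ∑ p ∈ u.support, u p • β (p.1 - ∑ j, p.1 (c j) • ψ j) p.2 := by
    rw [Finset.smul_sum, ← Finset.sum_neg_distrib]
    refine Finset.sum_le_sum fun p hp => ?_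
    have h5 := beta_abs β hβ (p.1 - ∑ j, p.1 (c j) • ψ j) p.2
    have h6 := beta_mono_left β hβ (h1 p hp) (abs_nonneg p.2)
    rw [map_smul, LinearMap.smul_apply] at h6
    have h7 : |u p • β (p.1 - ∑ j, p.1 (c j) • ψ j) p.2| ≤ ε • |u p| • β 1 |p.2| := by
      have h8 : |u p • β (p.1 - ∑ j, p.1 (c j) • ψ j) p.2| =
          |u p| • |β (p.1 - ∑ j, p.1 (c j) • ψ j) p.2| := by
        rcases le_total 0 (u p) with h | h
        · rcases eq_or_lt_of_le h with h' | h'
          · rw [← h']; simp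
          · rw [abs_of_nonneg h]
            change u p • _ ⊔ -(u p • _) = u p • (_ ⊔ -_)
            rw [smul_sup' h', smul_neg]
        · rcases eq_or_lt_of_le h with h' | h'
          · rw [h']; simp
          · rw [abs_of_nonpos h, ← abs_neg, ← neg_smul]
            change (-u p) • _ ⊔ -((-u p) • _) = (-u p) • (_ ⊔ -_)
            rw [smul_sup' (neg_pos.2 h'), smul_neg]
      rw [h8, smul_comm]
      exact smul_le_smul_of_nonneg_left (h5.trans h6) (abs_nonneg _)
    exact neg_le.1 ((neg_le_abs _).trans h7)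
  rw [h2]
  refine h4.trans ?_
  exact le_add_of_nonneg_right h3

lemma eT_single (x : C(K A, ℝ)) (y : C(K B, ℝ)) (r : ℝ) :
    eT A B (Finsupp.single (x, y) r) = r • tens x y := by
  unfold eT
  rw [Finsupp.linearCombination_single]

lemma fT_single (x : C(K A, ℝ)) (y : C(K B, ℝ)) (r : ℝ) :
    fT β (Finsupp.single (x, y) r) = r • β x y := by
  unfold fT
  rw [Finsupp.linearCombination_single]

include hβ in
lemma fT_bound (u : (C(K A, ℝ) × C(K B, ℝ)) →₀ ℝ) : ‖fT β u‖ ≤ ‖β 1 1‖ * ‖eT A B u‖ := by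
  have h1 : ∀ u : (C(K A, ℝ) × C(K B, ℝ)) →₀ ℝ, fT β u ≤ ‖eT A B u‖ • β 1 1 := by
    intro u
    have h2 : 0 ≤ eT A B (Finsupp.single (1, 1) ‖eT A B u‖ - u) := by
      rw [map_sub, eT_single, tens_one, sub_nonneg]
      exact (le_abs_self _).trans (Fam.abs_le_norm _)
    have h3 := fT_nonneg β hβ h2
    rw [map_sub, fT_single] at h3
    exact sub_nonneg.1 h3
  have hone : (0 : C(K A, ℝ)) ≤ 1 := fun _ => zero_le_one
  have hone' : (0 : C(K B, ℝ)) ≤ 1 := fun _ => zero_le_one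
  have h4 : |fT β u| ≤ |‖eT A B u‖ • β 1 1| := by
    rw [abs_of_nonneg (smul_nonneg (norm_nonneg _) (hβ 1 1 hone hone')), abs_le']
    refine ⟨h1 u, ?_⟩
    have h5 := h1 (-u)
    rwa [map_neg, map_neg, norm_neg] at h5
  refine (norm_le_of_abs_le h4).trans ?_
  rw [norm_smul, norm_norm, mul_comm]

include hβ in
/-- the linear extension of a positive bilinear map -/
lemma exists_ext : ∃ T : C(K (A ⊕ B), ℝ) →L[ℝ] Z, (∀ f, 0 ≤ f → 0 ≤ T f) ∧
    ∀ x y, T (tens x y) = β x y := by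
  have hrange : Set.range (eT A B) = (V A B : Set C(K (A ⊕ B), ℝ)) := by
    unfold eT V
    rw [← Finsupp.range_linearCombination]
    rfl
  have hd : DenseRange (eT A B) := by
    unfold DenseRange
    rw [hrange]
    exact V_dense
  set T : C(K (A ⊕ B), ℝ) →L[ℝ] Z := (fT β).extendOfNorm (eT A B) with hT
  have hT1 : ∀ u, T (eT A B u) = fT β u := fun u =>
    LinearMap.extendOfNorm_eq hd ⟨‖β 1 1‖, fT_bound β hβ⟩ u
  have hT2 : ∀ x y, T (tens x y) = β x y := fun x y => by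
    have h1 := hT1 (Finsupp.single (x, y) 1)
    rwa [eT_single, fT_single, one_smul, one_smul] at h1
  refine ⟨T, fun f hf => ?_, hT2⟩
  have h0 : ∀ ε : ℝ, 0 < ε → ∃ g, 0 ≤ T g ∧ ‖f - g‖ ≤ ε := by
    intro ε hε
    obtain ⟨u, hu⟩ := hd.exists_dist_lt f (half_pos hε)
    rw [dist_eq_norm] at hu
    refine ⟨eT A B (u + Finsupp.single (1, 1) (ε / 2)), ?_, ?_⟩
    · rw [hT1]
      apply fT_nonneg β hβ
      rw [map_add, eT_single, tens_one]
      intro k
      change 0 ≤ eT A B u k + ε / 2 * 1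
      have h1 := (f - eT A B u).norm_coe_le_norm k
      rw [Real.norm_eq_abs] at h1
      have h2 := (abs_le.1 (h1.trans hu.le)).2
      have h3 : 0 ≤ f k := hf k
      have h4 : (f - eT A B u) k = f k - eT A B u k := rfl
      rw [h4] at h2
      linarith
    · rw [map_add, eT_single, tens_one, ← sub_sub]
      refine (norm_sub_le _ _).trans ?_
      have h1 : ‖(ε / 2) • (1 : C(K (A ⊕ B), ℝ))‖ ≤ ε / 2 := by
        rw [norm_smul, Real.norm_eq_abs, abs_of_pos (half_pos hε)]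
        calc ε / 2 * ‖(1 : C(K (A ⊕ B), ℝ))‖ ≤ ε / 2 * 1 := by
              gcongr
              exact norm_one_le
          _ = ε / 2 := mul_one _
      linarith
  choose g hg1 hg2 using fun n : ℕ => h0 (1 / ((n : ℝ) + 1)) (by positivity)
  have hlim : Tendsto g atTop (𝓝 f) := by
    rw [tendsto_iff_norm_sub_tendsto_zero]
    refine squeeze_zero (fun _ => norm_nonneg _) (fun n => ?_)
      tendsto_one_div_add_atTop_nhds_zero_nat
    rw [norm_sub_rev]
    exact hg2 n
  exact ge_of_tendsto ((T.continuous.tendsto f).comp hlim) (Eventually.of_forall hg1)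

end

end

end Pool.Agent.X171.FT
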