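import Pool.Agent.X171.FT.Ren

/-!
# The projective Banach lattices `X_A`, their Fremlin tensor product, and the test lattice
-/

open Filter
open scoped Topology

namespace Pool.Agent.X171.FT

open Pool.Agent.X171.BL Pool.Agent.X171.SP

universe u v

lemma norm_one_le {Γ : Type} : ‖(1 : C(K Γ, ℝ))‖ ≤ 1 :=
  (ContinuousMap.norm_le _ zero_le_one).2 fun _ => by
    rw [ContinuousMap.one_apply, norm_one]

lemma norm_le_one_of {Γ : Type} {f : C(K Γ, ℝ)} (h0 : ∀ k, 0 ≤ f k) (h1 : ∀ k, f k ≤ 1) :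
    ‖f‖ ≤ 1 :=
  (ContinuousMap.norm_le _ zero_le_one).2 fun k => by
    rw [Real.norm_eq_abs, abs_of_nonneg (h0 k)]
    exact h1 k

/-- the generators `1` and the coordinates `x_a` -/
noncomputable def genA {A : Type} : Option A → C(K A, ℝ)
  | none => 1
  | some a => pr a

/-- the weights: `3` for `1` and `1` for the coordinates -/
def wA {A : Type} : Option A → ℝ
  | none => 3
  | some _ => 1

lemma wA_ge {A : Type} (i : Option A) : 1 ≤ wA i := by
  cases i <;> simp [wA]

lemma genA_nonneg {A : Type} (i : Option A) (k : K A) : 0 ≤ genA i k := by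
  cases i with
  | none => exact zero_le_one
  | some a => exact (k a).2.1

lemma genA_le {A : Type} (i : Option A) (k : K A) : genA i k ≤ 1 := by
  cases i with
  | none => exact le_rfl
  | some a => exact (k a).2.2

/-- the family defining the norm of `X_A` -/
noncomputable def famA (A : Type) : Fam A (Option A) where
  p := genA
  w := wA
  p_nonneg := fun i k => genA_nonneg i k
  norm_p := fun i => (norm_le_one_of (genA_nonneg i) (genA_le i)).trans (wA_ge i)
  one := none
  p_one := rfl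

lemma lift_gen {A : Type} {X : Type v} [NormedAddCommGroup X] [Lattice X] [NormedSpace ℝ X]
    [BanachLattice X] (J : ClosedIdeal X) {T : C(K A, ℝ) →L[ℝ] J.Quo} (hT : IsLatticeHom T)
    {c : Option A → ℝ} (hc : ∀ i, ‖T (genA i)‖ < c i) :
    ∃ S : C(K A, ℝ) →L[ℝ] X, IsLatticeHom S ∧ (∀ f, J.proj (S f) = T f) ∧
      ∀ i, ‖S (genA i)‖ ≤ c i := by
  have hone : (0 : C(K A, ℝ)) ≤ 1 := fun _ => zero_le_one
  obtain ⟨x, hx, hx'⟩ := J.exists_lift (T 1) _ (hc none)
  choose z hz hz' using fun a : A => J.exists_lift (T (pr a)) _ (hc (some a))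
  have hQe : J.proj |x| = T 1 := by
    rw [J.mk_hom.abs, hx, abs_of_nonneg (hT.nonneg hone)]
  have hQu : ∀ a, J.proj (|z a| ⊓ |x|) = T (pr a) := by
    intro a
    have h0 : (0 : C(K A, ℝ)) ≤ pr a := fun k => (k a).2.1
    have h1 : (pr a : C(K A, ℝ)) ≤ 1 := fun k => (k a).2.2
    rw [J.mk_hom.inf, hQe, J.mk_hom.abs, hz, abs_of_nonneg (hT.nonneg h0)]
    exact inf_eq_left.2 (hT.mono h1)
  obtain ⟨S, hS, hS1, hS2⟩ := exists_hom' (Γ := A) (e := |x|) (u := fun a => |z a| ⊓ |x|)
    (fun a => ⟨le_inf (abs_nonneg _) (abs_nonneg _), inf_le_right⟩) (abs_nonneg x)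
  refine ⟨S, hS, fun f => ?_, fun i => ?_⟩
  · exact hom_ext (S := J.proj.comp S) (T := T) (J.mk_hom.comp hS) hT
      (by rw [ContinuousLinearMap.comp_apply, hS1, hQe])
      (fun a => by rw [ContinuousLinearMap.comp_apply, hS2, hQu]) f
  · cases i with
    | none =>
      change ‖S 1‖ ≤ _
      rw [hS1, norm_abs_eq_norm]
      exact hx'.le
    | some a =>
      change ‖S (pr a)‖ ≤ _
      rw [hS2]
      refine (norm_le_of_le (le_inf (abs_nonneg _) (abs_nonneg _)) inf_le_left).trans ?_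
      rw [norm_abs_eq_norm]
      exact (hz' a).le

/-- **`X_A` is projective.** -/
theorem projA (A : Type) : OnePlusProjective.{0, v} (RF (famA A)) := by
  intro X _ _ _ _ J T hT ε hε
  rcases eq_or_ne T 0 with hT0 | hT0
  · refine ⟨0, ⟨fun x y => ?_, fun x y => ?_⟩, fun p => ?_, ?_⟩
    · simp
    · simp
    · rw [hT0]; simp
    · rw [norm_zero]; positivity
  · have hTn : 0 < ‖T‖ := norm_pos_iff.2 hT0
    have hn : ∀ i : Option A,
        ‖(T.comp (toRF (famA A) : C(K A, ℝ) →L[ℝ] RF (famA A))) (genA i)‖ <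
          (1 + ε) * ‖T‖ * wA i := by
      intro i
      have h1 : ‖T (toRF (famA A) (genA i))‖ ≤ ‖T‖ * wA i := by
        refine (T.le_opNorm _).trans ?_
        exact mul_le_mul_of_nonneg_left ((famA A).rho_p i) hTn.le
      have h2 : 0 < ‖T‖ * wA i := mul_pos hTn (lt_of_lt_of_le one_pos (wA_ge i))
      refine lt_of_le_of_lt h1 ?_
      nlinarith
    obtain ⟨S, hS, hS1, hS2⟩ := lift_gen J (hT.comp (toRF_hom (famA A))) hn
    refine ⟨S.comp ((toRF (famA A)).symm : RF (famA A) →L[ℝ] C(K A, ℝ)),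
      hS.comp (toRF_symm_hom (famA A)), fun f => hS1 f, ?_⟩
    refine ContinuousLinearMap.opNorm_le_bound _ (by positivity) fun f => ?_
    exact bound_of_pos (famA A) (fun g hg => hS.nonneg hg) (by positivity) (fun i => hS2 i) f

/-! ### The tensor product -/

section
variable {A B : Type}

/-- the projections of the cube over `A ⊕ B` -/
def fstK (k : K (A ⊕ B)) : K A := fun a => k (Sum.inl a)
/-- the projections of the cube over `A ⊕ B` -/
def sndK (k : K (A ⊕ B)) : K B := fun b => k (Sum.inr b)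
/-- pairs of points -/
def pairK (k : K A) (l : K B) : K (A ⊕ B) := Sum.elim k l

lemma fstK_continuous : Continuous (fstK : K (A ⊕ B) → K A) := by
  unfold fstK; fun_prop

lemma sndK_continuous : Continuous (sndK : K (A ⊕ B) → K B) := by
  unfold sndK; fun_prop

lemma fstK_pairK (k : K A) (l : K B) : fstK (pairK k l) = k := rfl
lemma sndK_pairK (k : K A) (l : K B) : sndK (pairK k l) = l := rfl
lemma pairK_eq (k : K (A ⊕ B)) : pairK (fstK k) (sndK k) = k := by
  funext c
  cases c <;> rfl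

/-- the function `(k, l) ↦ x k * y l` -/
noncomputable def tens (x : C(K A, ℝ)) (y : C(K B, ℝ)) : C(K (A ⊕ B), ℝ) :=
  pull fstK fstK_continuous x * pull sndK sndK_continuous y

lemma tens_apply (x : C(K A, ℝ)) (y : C(K B, ℝ)) (k : K (A ⊕ B)) :
    tens x y k = x (fstK k) * y (sndK k) := rfl

lemma tens_nonneg {x : C(K A, ℝ)} {y : C(K B, ℝ)} (hx : 0 ≤ x) (hy : 0 ≤ y) : 0 ≤ tens x y :=
  fun k => mul_nonneg (hx (fstK k)) (hy (sndK k))

lemma tens_add_left (x x' : C(K A, ℝ)) (y : C(K B, ℝ)) :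
    tens (x + x') y = tens x y + tens x' y := by
  unfold tens
  rw [map_add, add_mul]

lemma tens_add_right (x : C(K A, ℝ)) (y y' : C(K B, ℝ)) :
    tens x (y + y') = tens x y + tens x y' := by
  unfold tens
  rw [map_add, mul_add]

lemma tens_smul_left (r : ℝ) (x : C(K A, ℝ)) (y : C(K B, ℝ)) :
    tens (r • x) y = r • tens x y := by
  unfold tens
  rw [map_smul, smul_mul_assoc]

lemma tens_smul_right (r : ℝ) (x : C(K A, ℝ)) (y : C(K B, ℝ)) :
    tens x (r • y) = r • tens x y := by
  unfold tens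
  rw [map_smul, mul_smul_comm]

lemma tens_abs (x : C(K A, ℝ)) (y : C(K B, ℝ)) : |tens x y| = tens |x| |y| := by
  ext k
  exact abs_mul (x (fstK k)) (y (sndK k))

lemma tens_one : tens (1 : C(K A, ℝ)) (1 : C(K B, ℝ)) = 1 := by
  ext k
  rw [tens_apply]
  simp

/-- the family defining the norm of `X_A ⊗ X_B` -/
noncomputable def famE (A B : Type) : Fam (A ⊕ B) (Option A × Option B) where
  p := fun i => tens (genA i.1) (genA i.2)
  w := fun i => wA i.1 * wA i.2
  p_nonneg := fun i => tens_nonneg (fun k => genA_nonneg i.1 k) (fun k => genA_nonneg i.2 k)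
  norm_p := fun i => by
    refine (norm_le_one_of (fun k => ?_) fun k => ?_).trans ?_
    · exact mul_nonneg (genA_nonneg _ _) (genA_nonneg _ _)
    · exact mul_le_one₀ (genA_le _ _) (genA_nonneg _ _) (genA_le _ _)
    · nlinarith [wA_ge i.1, wA_ge i.2]
  one := (none, none)
  p_one := tens_one

/-- the generators of the test lattice: `1`, `x_a`, `y_b`, `z_{a b}` -/
noncomputable def genZ : Option A × Option B → C(K ((A × B) ⊕ (A ⊕ B)), ℝ)
  | (none, none) => 1
  | (some a, none) => pr (Sum.inr (Sum.inl a))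
  | (none, some b) => pr (Sum.inr (Sum.inr b))
  | (some a, some b) => pr (Sum.inl (a, b))

lemma genZ_nonneg (i : Option A × Option B) (k : K ((A × B) ⊕ (A ⊕ B))) : 0 ≤ genZ i k := by
  rcases i with ⟨_ | a, _ | b⟩
  · exact zero_le_one
  · exact (k _).2.1
  · exact (k _).2.1
  · exact (k _).2.1

lemma genZ_le (i : Option A × Option B) (k : K ((A × B) ⊕ (A ⊕ B))) : genZ i k ≤ 1 := by
  rcases i with ⟨_ | a, _ | b⟩
  · exact le_rfl
  · exact (k _).2.2
  · exact (k _).2.2
  · exact (k _).2.2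

/-- the family defining the norm of the test lattice `Z` -/
noncomputable def famZ (A B : Type) : Fam ((A × B) ⊕ (A ⊕ B)) (Option A × Option B) where
  p := genZ
  w := fun i => wA i.1 * wA i.2
  p_nonneg := fun i k => genZ_nonneg i k
  norm_p := fun i => by
    refine (norm_le_one_of (genZ_nonneg i) (genZ_le i)).trans ?_
    nlinarith [wA_ge i.1, wA_ge i.2]
  one := (none, none)
  p_one := rfl

/-- the set `z_{a b} = x_a y_b` -/
def Dset (A B : Type) : Set (K ((A × B) ⊕ (A ⊕ B))) :=
  {k | ∀ a b, (k (Sum.inl (a, b)) : ℝ) = k (Sum.inr (Sum.inl a)) * k (Sum.inr (Sum.inr b))}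

/-- the ideal of the functions vanishing on `Dset` -/
noncomputable def JD (A B : Type) : ClosedIdeal (RF (famZ A B)) where
  carrier := {f | ∀ k ∈ Dset A B, (show C(K ((A × B) ⊕ (A ⊕ B)), ℝ) from f) k = 0}
  zero_mem' := fun k _ => rfl
  add_mem' := fun {f g} hf hg k hk => by
    have h1 := hf k hk
    have h2 := hg k hk
    change (show C(K ((A × B) ⊕ (A ⊕ B)), ℝ) from f) k +
      (show C(K ((A × B) ⊕ (A ⊕ B)), ℝ) from g) k = 0
    rw [h1, h2, add_zero]
  smul_mem' := fun r f hf k hk => by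
    have h1 := hf k hk
    change r * (show C(K ((A × B) ⊕ (A ⊕ B)), ℝ) from f) k = 0
    rw [h1, mul_zero]
  solid' := fun f g hf hgf k hk => by
    have h1 := hf k hk
    have h2 : |(show C(K ((A × B) ⊕ (A ⊕ B)), ℝ) from g) k| ≤
      |(show C(K ((A × B) ⊕ (A ⊕ B)), ℝ) from f) k| := hgf k
    rw [h1, abs_zero] at h2
    exact abs_nonpos_iff.1 h2
  closed' := by
    have h1 : {f : RF (famZ A B) | ∀ k ∈ Dset A B,
        (show C(K ((A × B) ⊕ (A ⊕ B)), ℝ) from f) k = 0} =
        ⋂ k ∈ Dset A B, {f : RF (famZ A B) | ((toRF (famZ A B)).symm f) k = 0} := by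
      ext f
      simp only [Set.mem_iInter]
      rfl
    change IsClosed {f : RF (famZ A B) | ∀ k ∈ Dset A B,
        (show C(K ((A × B) ⊕ (A ⊕ B)), ℝ) from f) k = 0}
    rw [h1]
    refine isClosed_biInter fun k _ => isClosed_eq ?_ continuous_const
    exact (continuous_eval_const k).comp (toRF (famZ A B)).symm.continuous

end

end Pool.Agent.X171.FT
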